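import Pool.Agent.Helper68.QC.St3

/-!
# Project QD, part M, module LBE: the Beltrami equation passes to the limit
-/

set_option autoImplicit false

open MeasureTheory Set Filter Topology Complex
open scoped ContDiff ComplexConjugate ENNReal

namespace Pool.Agent.Helper72.QCM

open Pool.Agent.Helper68.QC

theorem int_mul {a ψ : ℂ → ℂ} (ha : L2 univ a) (hψ : MemLp ψ 2 volume) {R : ℝ}
    (hR : ∀ z, R < ‖z‖ → ψ z = 0) : Integrable (fun z => a z * ψ z) := by
  have h1 : MemLp ((Metric.closedBall (0 : ℂ) R).indicator a) 2 volume :=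
    (memLp_indicator_iff_restrict measurableSet_closedBall).2
      (ha _ (subset_univ _) (isCompact_closedBall _ _))
  have h2 := h1.integrable_mul hψ
  refine h2.congr (Eventually.of_forall fun z => ?_)
  by_cases hz : z ∈ Metric.closedBall (0 : ℂ) R
  · simp [Set.indicator_of_mem hz]
  · have h3 : ψ z = 0 := by
      apply hR
      rw [mem_closedBall_zero_iff] at hz
      exact not_le.1 hz
    simp [h3]

theorem L2.locInt {a : ℂ → ℂ} (ha : L2 univ a) : LocallyIntegrable a := by
  rw [locallyIntegrable_iff]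
  intro K hK
  have : IsFiniteMeasure (volume.restrict K) :=
    ⟨by rw [Measure.restrict_apply_univ]; exact hK.measure_lt_top⟩
  exact (ha K (subset_univ _) hK).integrable (by norm_num)

theorem pLBE : Pool.Agent.Helper68.QC.StLBE := by
  intro k ι F μ a b ν a' b' hμ hν hlim ha hb hEB hbel ha' hb' hwa hwb
  have hk : 0 ≤ k := (norm_nonneg _).trans (hν.le 0)
  have hloc : LocallyIntegrable (fun z => b' z - ν z * a' z) := by
    refine (L2.locInt hb').sub ?_
    rw [locallyIntegrable_iff]
    intro K hK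
    have h1 := (locallyIntegrable_iff.1 (L2.locInt ha')) K hK
    exact Integrable.bdd_mul (c := k) h1 hν.meas.aestronglyMeasurable
      (Eventually.of_forall fun z => hν.le z)
  have hz := ae_eq_zero_of_integral_contDiff_smul_eq_zero hloc (fun g hg hgc => ?_)
  · filter_upwards [hz] with z hz
    exact sub_eq_zero.1 hz
  -- the test function
  obtain ⟨φ, hφ⟩ : ∃ φ : ℂ → ℂ, ∀ z, φ z = (g z : ℂ) := ⟨_, fun _ => rfl⟩
  have hφc : Continuous φ := by
    have : φ = fun z => (g z : ℂ) := funext hφ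
    rw [this]
    exact continuous_ofReal.comp hg.continuous
  have hφs : HasCompactSupport φ := by
    have : φ = fun z => (g z : ℂ) := funext hφ
    rw [this]
    exact hgc.comp_left (g := fun x : ℝ => (x : ℂ)) (by simp)
  obtain ⟨R0, hR0⟩ := hφs.isCompact.isBounded.subset_closedBall (0 : ℂ)
  obtain ⟨M, hM⟩ := hφc.bounded_above_of_compact_support hφs
  have hM0 : 0 ≤ M := (norm_nonneg _).trans (hM 0)
  have hzero : ∀ z, R0 < ‖z‖ → φ z = 0 := by
    intro z hz
    by_contra hne
    have h1 := hR0 (subset_tsupport φ (Function.mem_support.2 hne))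
    rw [mem_closedBall_zero_iff] at h1
    linarith
  have hφ2 : MemLp φ 2 volume := hφc.memLp_of_hasCompactSupport hφs
  have hνφ : MemLp (fun z => ν z * φ z) 2 volume := by
    refine MemLp.of_le_mul (c := k) hφ2 (hν.meas.aestronglyMeasurable.mul hφc.aestronglyMeasurable)
      (Eventually.of_forall fun z => ?_)
    rw [norm_mul]
    exact mul_le_mul_of_nonneg_right (hν.le z) (norm_nonneg _)
  have hνφ0 : ∀ z, R0 < ‖z‖ → ν z * φ z = 0 := fun z hz => by rw [hzero z hz, mul_zero]
  have t1 := hwb φ hφ2 ⟨R0, hzero⟩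
  have t2 := hwa (fun z => ν z * φ z) hνφ ⟨R0, hνφ0⟩
  have t3 := t1.sub t2
  -- the difference
  obtain ⟨U, hU⟩ : ∃ U : Set ℂ, U = Metric.ball 0 (R0 + 1) := ⟨_, rfl⟩
  have hUm : MeasurableSet U := by
    rw [hU]
    exact measurableSet_ball
  have hUfin : volume U < ⊤ := by
    rw [hU]
    exact measure_ball_lt_top
  have hfinU : IsFiniteMeasure (volume.restrict U) :=
    ⟨by rw [Measure.restrict_apply_univ]; exact hUfin⟩
  obtain ⟨B, hB⟩ := hEB (R0 + 1)
  have hclim := hlim (R0 + 1)
  rw [← hU] at hclim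
  have hcl : ∀ i, MemLp (a i) 2 (volume.restrict (Metric.closedBall (0 : ℂ) (R0 + 1))) := fun i =>
    ha i _ (subset_univ _) (isCompact_closedBall _ _)
  have hclb : ∀ i, MemLp (b i) 2 (volume.restrict (Metric.closedBall (0 : ℂ) (R0 + 1))) := fun i =>
    hb i _ (subset_univ _) (isCompact_closedBall _ _)
  have hsqa : ∀ i, IntegrableOn (fun z => ‖a i z‖ ^ 2) (Metric.closedBall (0 : ℂ) (R0 + 1)) := fun i =>
    (hcl i).integrable_norm_pow (by norm_num)
  have hsqb : ∀ i, IntegrableOn (fun z => ‖b i z‖ ^ 2) (Metric.closedBall (0 : ℂ) (R0 + 1)) := fun i =>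
    (hclb i).integrable_norm_pow (by norm_num)
  have hUsub : U ⊆ Metric.closedBall (0 : ℂ) (R0 + 1) := by
    rw [hU]
    exact Metric.ball_subset_closedBall
  have hBU : ∀ i, ∫ z in U, ‖a i z‖ ^ 2 ≤ B := by
    intro i
    refine le_trans ?_ (hB i)
    refine le_trans (setIntegral_mono_set (hsqa i) (Eventually.of_forall fun z => by positivity)
      hUsub.eventuallyLE) ?_
    refine integral_mono (hsqa i) ((hsqa i).add (hsqb i)) fun z => ?_
    change ‖a i z‖ ^ 2 ≤ ‖a i z‖ ^ 2 + ‖b i z‖ ^ 2
    have := sq_nonneg ‖b i z‖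
    linarith
  have hdint : ∀ i, IntegrableOn (fun z => ‖μ i z - ν z‖) U := by
    intro i
    refine Integrable.of_bound ((hμ i).meas.sub hν.meas).norm.aestronglyMeasurable (k + k)
      (Eventually.of_forall fun z => ?_)
    rw [norm_norm]
    exact (norm_sub_le _ _).trans (add_le_add ((hμ i).le z) (hν.le z))
  have hdiff : ∀ i, (∫ z, b i z * φ z) - ∫ z, a i z * (ν z * φ z) =
      ∫ z, (μ i z - ν z) * a i z * φ z := by
    intro i
    rw [← integral_sub (int_mul (hb i) hφ2 hzero) (int_mul (ha i) hνφ hνφ0)]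
    refine integral_congr_ae ?_
    filter_upwards [hbel i] with z hz
    rw [hz]
    ring
  have hbound : ∀ ε : ℝ, 0 < ε → ∀ i, ‖∫ z, (μ i z - ν z) * a i z * φ z‖ ≤
      M * (k / ε * (∫ z in U, ‖μ i z - ν z‖) + ε / 2 * B) := by
    intro ε hε i
    have h1 : ∫ z, (μ i z - ν z) * a i z * φ z = ∫ z in U, (μ i z - ν z) * a i z * φ z := by
      rw [setIntegral_eq_integral_of_forall_compl_eq_zero]
      intro z hz
      rw [hU, mem_ball_zero_iff, not_lt] at hz
      rw [hzero z (by linarith), mul_zero]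
    rw [h1]
    refine (norm_integral_le_integral_norm _).trans ?_
    have h2 : ∫ z in U, M * (k / ε * ‖μ i z - ν z‖ + ε / 2 * ‖a i z‖ ^ 2) ≤
        M * (k / ε * (∫ z in U, ‖μ i z - ν z‖) + ε / 2 * B) := by
      rw [integral_const_mul, integral_add ((hdint i).const_mul _)
        (((hsqa i).mono_set hUsub).const_mul _), integral_const_mul, integral_const_mul]
      have := hBU i
      gcongr
    refine le_trans ?_ h2
    refine integral_mono_of_nonneg (Eventually.of_forall fun z => norm_nonneg _)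
      ((((hdint i).const_mul _).add (((hsqa i).mono_set hUsub).const_mul _)).const_mul _)
      (Eventually.of_forall fun z => ?_)
    change ‖(μ i z - ν z) * a i z * φ z‖ ≤ M * (k / ε * ‖μ i z - ν z‖ + ε / 2 * ‖a i z‖ ^ 2)
    rw [norm_mul, norm_mul, mul_comm]
    have h3 : ‖μ i z - ν z‖ ≤ 2 * k := by
      refine (norm_sub_le _ _).trans ?_
      have := (hμ i).le z
      have := hν.le z
      linarith
    have h4 : ‖μ i z - ν z‖ * ‖a i z‖ ≤ k / ε * ‖μ i z - ν z‖ + ε / 2 * ‖a i z‖ ^ 2 := by
      have h5 : ‖μ i z - ν z‖ ^ 2 ≤ 2 * k * ‖μ i z - ν z‖ := by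
        nlinarith [norm_nonneg (μ i z - ν z)]
      have h6 : 0 ≤ (‖μ i z - ν z‖ - ε * ‖a i z‖) ^ 2 := sq_nonneg _
      rw [div_mul_eq_mul_div, div_add' _ _ _ hε.ne', le_div_iff₀ hε]
      nlinarith
    exact mul_le_mul (hM z) h4 (by positivity) hM0
  have hB0 : 0 ≤ B := by
    have : F.NeBot := inferInstance
    obtain ⟨i⟩ : Nonempty ι := this.nonempty
    exact le_trans (integral_nonneg fun z => by positivity) (hBU i)
  have hto : Tendsto (fun i => (∫ z, b i z * φ z) - ∫ z, a i z * (ν z * φ z)) F (𝓝 0) := by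
    rw [Metric.tendsto_nhds]
    intro η hη
    obtain ⟨ε, hε, hε2⟩ : ∃ ε : ℝ, 0 < ε ∧ M * (ε / 2 * B) < η / 2 := by
      refine ⟨η / (M * B + 1), by positivity, ?_⟩
      have : M * (η / (M * B + 1) / 2 * B) = (M * B) / (M * B + 1) * (η / 2) := by
        field_simp
      rw [this]
      have h7 : M * B / (M * B + 1) < 1 := by
        rw [div_lt_one (by positivity)]
        linarith
      nlinarith
    have h8 : Tendsto (fun i => M * (k / ε * (∫ z in U, ‖μ i z - ν z‖) + ε / 2 * B)) F
        (𝓝 (M * (k / ε * 0 + ε / 2 * B))) :=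
      ((hclim.const_mul _).add tendsto_const_nhds).const_mul _
    have h9 : M * (k / ε * 0 + ε / 2 * B) < η := by
      rw [mul_zero, zero_add]
      linarith
    filter_upwards [h8.eventually (gt_mem_nhds h9)] with i hi
    rw [dist_zero_right, hdiff i]
    exact lt_of_le_of_lt (hbound ε hε i) hi
  have heq := tendsto_nhds_unique t3 hto
  rw [← integral_sub (int_mul hb' hφ2 hzero) (int_mul ha' hνφ hνφ0)] at heq
  rw [← heq]
  refine integral_congr_ae (Eventually.of_forall fun z => ?_)
  change g z • (b' z - ν z * a' z) = b' z * φ z - a' z * (ν z * φ z)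
  rw [hφ, real_smul]
  ring

end Pool.Agent.Helper72.QCM
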