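import Pool.Agent.Helper68.QC.St6

open MeasureTheory Set Filter Topology Complex
open scoped ContDiff ComplexConjugate ENNReal

namespace Pool.Agent.Helper72.QCM

open Pool.Agent.Helper68.QC

private def An (L : ℂ) (n : ℤ) : Set ℂ := {η : ℂ | ‖L‖ ^ n ≤ ‖η‖ ∧ ‖η‖ < ‖L‖ ^ (n + 1)}

private theorem An_meas (L : ℂ) (n : ℤ) : MeasurableSet (An L n) :=
  (measurableSet_le measurable_const measurable_norm).inter
    (measurableSet_lt measurable_norm measurable_const)

private theorem An_image (L : ℂ) (hL : 1 < ‖L‖) (n : ℤ) :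
    (fun η : ℂ => L ^ n * η) '' An L 0 = An L n := by
  have h0 : 0 < ‖L‖ := by linarith
  have hL0 : L ≠ 0 := norm_pos_iff.1 h0
  have hp : 0 < ‖L‖ ^ n := zpow_pos h0 n
  ext z
  constructor
  · rintro ⟨η, ⟨h1, h2⟩, rfl⟩
    refine ⟨?_, ?_⟩
    · show ‖L‖ ^ n ≤ ‖L ^ n * η‖
      rw [norm_mul, norm_zpow]
      rw [zpow_zero] at h1
      nlinarith
    · show ‖L ^ n * η‖ < _
      rw [norm_mul, norm_zpow, zpow_add₀ h0.ne', zpow_one]
      rw [zero_add, zpow_one] at h2
      exact mul_lt_mul_of_pos_left h2 hp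
  · rintro ⟨h1, h2⟩
    refine ⟨L ^ (-n) * z, ⟨?_, ?_⟩, ?_⟩
    · rw [zpow_zero, norm_mul, norm_zpow, zpow_neg, inv_mul_eq_div, le_div_iff₀ hp, one_mul]
      exact h1
    · rw [zero_add, zpow_one, norm_mul, norm_zpow, zpow_neg, inv_mul_eq_div, div_lt_iff₀ hp]
      rw [zpow_add₀ h0.ne', zpow_one, mul_comm] at h2
      exact h2
    · show L ^ n * (L ^ (-n) * z) = z
      rw [← mul_assoc, ← zpow_add₀ hL0, add_neg_cancel, zpow_zero, one_mul]

private theorem An_disj (L : ℂ) (hL : 1 < ‖L‖) : Pairwise (Function.onFun Disjoint (An L)) := by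
  intro i j hij
  rw [Function.onFun, Set.disjoint_left]
  rintro z ⟨h1, h2⟩ ⟨h3, h4⟩
  have h5 : i < j + 1 := (zpow_lt_zpow_iff_right₀ hL).1 (lt_of_le_of_lt h1 h4)
  have h6 : j < i + 1 := (zpow_lt_zpow_iff_right₀ hL).1 (lt_of_le_of_lt h3 h2)
  omega

private theorem An_cover (L : ℂ) (hL : 1 < ‖L‖) : ⋃ n, An L n = {0}ᶜ := by
  ext z
  simp only [mem_iUnion, mem_compl_iff, mem_singleton_iff]
  constructor
  · rintro ⟨n, h1, -⟩ rfl
    have : 0 < ‖L‖ ^ n := zpow_pos (by linarith) n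
    rw [norm_zero] at h1
    linarith
  · intro hz
    obtain ⟨n, h1, h2⟩ := exists_mem_Ico_zpow (norm_pos_iff.2 hz) hL
    exact ⟨n, h1, h2⟩

private theorem det_lin (c : ℂ) : (lin c 0).det = ‖c‖ ^ 2 := by
  rw [det_eq, ← Complex.normSq_eq_norm_sq]
  simp [Complex.normSq_apply]

private theorem cv (L : ℂ) (hL : 1 < ‖L‖) (n : ℤ) (F : ℂ → ℝ≥0∞) :
    ∫⁻ η in An L n, F η = ∫⁻ η in An L 0, ENNReal.ofReal (‖L ^ n‖ ^ 2) * F (L ^ n * η) := by
  have hL0 : L ≠ 0 := norm_pos_iff.1 (by linarith)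
  have h := lintegral_image_eq_lintegral_abs_det_fderiv_mul volume (An_meas L 0)
    (f := fun η : ℂ => L ^ n * η) (f' := fun _ => lin (L ^ n) 0)
    (fun x _ => by
      have h1 : HasFDerivAt (fun η : ℂ => L ^ n * η) (lin (L ^ n) 0) x := by
        have h2 := (lin (L ^ n) 0).hasFDerivAt (x := x)
        have h3 : (⇑(lin (L ^ n) 0)) = fun η : ℂ => L ^ n * η := by
          funext v
          simp
        rwa [h3] at h2
      exact h1.hasFDerivWithinAt)
    (fun x _ y _ h => mul_left_cancel₀ (zpow_ne_zero n hL0) h) F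
  rw [An_image L hL n] at h
  rw [h]
  refine lintegral_congr fun η => ?_
  rw [det_lin, abs_of_nonneg (by positivity)]

private theorem area (L : ℂ) (hL : 1 < ‖L‖) :
    ∫ η in An L 0, 1 / ‖η‖ ^ 2 = 2 * Real.pi * Real.log ‖L‖ := by
  have h0 : 0 < ‖L‖ := by linarith
  have h1 : ∫ η in An L 0, 1 / ‖η‖ ^ 2 =
      ∫ η : ℂ, (Ico (1 : ℝ) ‖L‖).indicator (fun r : ℝ => 1 / r ^ 2) ‖η‖ := by
    rw [← integral_indicator (An_meas L 0)]
    refine integral_congr_ae (Eventually.of_forall fun η => ?_)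
    have h2 : η ∈ An L 0 ↔ ‖η‖ ∈ Ico (1 : ℝ) ‖L‖ := by
      simp [An]
    by_cases h3 : η ∈ An L 0
    · simp only [indicator_of_mem h3, indicator_of_mem (h2.1 h3)]
    · simp only [indicator_of_notMem h3, indicator_of_notMem (fun h => h3 (h2.2 h))]
  rw [h1, integral_fun_norm_addHaar volume]
  have h4 : ∫ y in Ioi (0 : ℝ), y ^ (Module.finrank ℝ ℂ - 1) •
      (Ico (1 : ℝ) ‖L‖).indicator (fun r : ℝ => 1 / r ^ 2) y = Real.log ‖L‖ := by
    have h5 : ∀ y ∈ Ioi (0 : ℝ), y ^ (Module.finrank ℝ ℂ - 1) •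
      (Ico (1 : ℝ) ‖L‖).indicator (fun r : ℝ => 1 / r ^ 2) y =
      (Ico (1 : ℝ) ‖L‖).indicator (fun r : ℝ => r⁻¹) y := by
      intro y hy
      have hy0 : (y : ℝ) ≠ 0 := ne_of_gt hy
      rw [Complex.finrank_real_complex]
      by_cases h6 : y ∈ Ico (1 : ℝ) ‖L‖
      · rw [indicator_of_mem h6, indicator_of_mem h6, smul_eq_mul]
        have h8 : (2 : ℕ) - 1 = 1 := rfl
        rw [h8, pow_one]
        field_simp
      · rw [indicator_of_notMem h6, indicator_of_notMem h6, smul_zero]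
    rw [setIntegral_congr_fun measurableSet_Ioi h5, setIntegral_indicator measurableSet_Ico]
    have h7 : Ioi (0 : ℝ) ∩ Ico 1 ‖L‖ = Ico 1 ‖L‖ := by
      apply Set.inter_eq_right.2
      intro y hy
      have : (1 : ℝ) ≤ y := hy.1
      show (0 : ℝ) < y
      linarith
    rw [h7, integral_Ico_eq_integral_Ioc, ← intervalIntegral.integral_of_le hL.le,
      integral_inv_of_pos one_pos h0, div_one]
  rw [h4, Complex.finrank_real_complex, measureReal_def, Complex.volume_ball]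
  simp
  ring

theorem pUNG : Pool.Agent.Helper68.QC.StUNG := by
  intro L G hL hGc hGs hG0 hGn hsum
  have h0 : 0 < ‖L‖ := by linarith
  have hL0 : L ≠ 0 := norm_pos_iff.1 h0
  have hm : Measurable (fun η : ℂ => G η / ‖η‖ ^ 2) :=
    hGc.measurable.div (measurable_norm.pow_const 2)
  rw [integral_eq_lintegral_of_nonneg_ae (Eventually.of_forall fun η => by
    show (0 : ℝ) ≤ G η / ‖η‖ ^ 2
    have := hGn η
    positivity) hm.aestronglyMeasurable]
  have hm1 : Measurable (fun η : ℂ => 1 / ‖η‖ ^ 2) :=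
    measurable_const.div (measurable_norm.pow_const 2)
  rw [← area L hL, integral_eq_lintegral_of_nonneg_ae (Eventually.of_forall fun η => by
    show (0 : ℝ) ≤ 1 / ‖η‖ ^ 2
    positivity) hm1.aestronglyMeasurable]
  congr 1
  have h1 : ∫⁻ η : ℂ, ENNReal.ofReal (G η / ‖η‖ ^ 2) =
      ∫⁻ η in ⋃ n, An L n, ENNReal.ofReal (G η / ‖η‖ ^ 2) := by
    rw [An_cover L hL]
    have h2 : (volume : Measure ℂ).restrict {0}ᶜ = volume := by
      rw [Measure.restrict_eq_self_of_ae_mem]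
      exact compl_mem_ae_iff.2 (by simp)
    rw [h2]
  rw [h1, lintegral_iUnion (An_meas L) (An_disj L hL)]
  have h3 : ∀ n : ℤ, ∫⁻ η in An L n, ENNReal.ofReal (G η / ‖η‖ ^ 2) =
      ∫⁻ η in An L 0, ENNReal.ofReal (G (L ^ n * η) / ‖η‖ ^ 2) := by
    intro n
    rw [cv L hL n]
    refine lintegral_congr fun η => ?_
    rw [← ENNReal.ofReal_mul (by positivity)]
    congr 1
    have h4 : ‖L ^ n‖ ≠ 0 := norm_ne_zero_iff.2 (zpow_ne_zero n hL0)
    rw [norm_mul, mul_pow]
    by_cases h5 : ‖η‖ = 0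
    · rw [h5]
      simp
    · field_simp
  simp_rw [h3]
  rw [← lintegral_tsum]
  · refine setLIntegral_congr_fun (An_meas L 0) fun η hη => ?_
    have hη0 : η ≠ 0 := by
      rintro rfl
      have h6 := hη.1
      simp at h6
      linarith
    have h7 := (hsum η hη0).div_const (‖η‖ ^ 2)
    rw [← ENNReal.ofReal_tsum_of_nonneg (fun n => by
      have := hGn (L ^ n * η)
      positivity) h7.summable, h7.tsum_eq]
  · intro n
    refine (Measurable.ennreal_ofReal ?_).aemeasurable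
    exact (hGc.measurable.comp (measurable_const_mul _)).div (measurable_norm.pow_const 2)

end Pool.Agent.Helper72.QCM
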